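import Pool.Agent.W912.EC.Defs2
import Pool.Agent.H622R2.Ckt.CNT
import Pool.Agent.H622R2.Ckt.LOC
import Pool.Agent.H620R2.Gauge.S

/-!
# Counting the assignments which few changes make right for some small circuit
-/

set_option autoImplicit false

namespace Pool.Agent.W22.EC

open Pool.Agent.NPC Pool.Agent.H620R2.Gauge Pool.Agent.H622R2.Exp Pool.Agent.H622R2.Ckt
open Pool.Agent.W900.CH Pool.Agent.W912.EC

/-- few strings decide the values of the gates -/
theorem foldl_cert (A : Oracle) (x : List Bool) (gs : List Gate) : ∀ v : List Bool,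
    ∃ Q : Finset (List Bool), Q.card ≤ (gs.map Gate.size).sum ∧
      ∀ A' : Oracle, (∀ y ∈ Q, A' y = A y) →
        gs.foldl (fun v g => v ++ [g.val A' x v]) v =
          gs.foldl (fun v g => v ++ [g.val A x v]) v := by
  classical
  induction gs with
  | nil => intro v; exact ⟨∅, by simp, fun _ _ => rfl⟩
  | cons g gs ih =>
    intro v
    obtain ⟨Q, hQ, hA⟩ := ih (v ++ [g.val A x v])
    cases g with
    | and r t =>
      refine ⟨Q, ?_, fun A' h => ?_⟩
      · rw [List.map_cons, List.sum_cons]; omega
      · rw [List.foldl_cons, List.foldl_cons]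
        exact hA A' h
    | or r t =>
      refine ⟨Q, ?_, fun A' h => ?_⟩
      · rw [List.map_cons, List.sum_cons]; omega
      · rw [List.foldl_cons, List.foldl_cons]
        exact hA A' h
    | not r =>
      refine ⟨Q, ?_, fun A' h => ?_⟩
      · rw [List.map_cons, List.sum_cons]; omega
      · rw [List.foldl_cons, List.foldl_cons]
        exact hA A' h
    | ask l =>
      refine ⟨insert (l.map (Wire.val x v)) Q, ?_, fun A' h => ?_⟩
      · have h1 := Finset.card_insert_le (l.map (Wire.val x v)) Q
        have h2 : (Gate.ask l).size = l.length + 1 := rfl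
        rw [List.map_cons, List.sum_cons, h2]
        omega
      · rw [List.foldl_cons, List.foldl_cons]
        have h1 : (Gate.ask l).val A' x v = (Gate.ask l).val A x v :=
          h _ (Finset.mem_insert_self _ _)
        rw [h1]
        exact hA A' fun y hy => h y (Finset.mem_insert_of_mem hy)

theorem eval_cert (C : Circuit) (A : Oracle) (x : List Bool) :
    ∃ Q : Finset (List Bool), Q.card ≤ C.size ∧
      ∀ A' : Oracle, (∀ y ∈ Q, A' y = A y) → C.eval A' x = C.eval A x := by
  obtain ⟨Q, hQ, h⟩ := foldl_cert A x C.gates []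
  refine ⟨Q, hQ, fun A' hA => ?_⟩
  unfold Circuit.eval gateVals
  rw [h A' hA]

/-- few positions decide the value of the circuit -/
theorem pos_cert (C : Circuit) (N : ℕ) (v : Fin N → Bool) (x : List Bool) :
    ∃ Q : Finset (Fin N), Q.card ≤ C.size ∧
      ∀ u : Fin N → Bool, (∀ i ∈ Q, u i = v i) → C.eval (orc N u) x = C.eval (orc N v) x := by
  classical
  obtain ⟨Q, hQ, h⟩ := eval_cert C (orc N v) x
  refine ⟨(Finset.univ : Finset (Fin N)).filter (fun i => ∃ y ∈ Q, idx y = i.val), ?_, ?_⟩
  · refine le_trans ?_ hQ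
    have h1 : ((Finset.univ : Finset (Fin N)).filter (fun i => ∃ y ∈ Q, idx y = i.val)).map
        Fin.valEmbedding ⊆ Q.image idx := by
      intro j hj
      rw [Finset.mem_map] at hj
      obtain ⟨i, hi, rfl⟩ := hj
      obtain ⟨y, hy, hyi⟩ := (Finset.mem_filter.1 hi).2
      rw [Finset.mem_image]
      exact ⟨y, hy, hyi⟩
    have h2 := Finset.card_le_card h1
    rw [Finset.card_map] at h2
    exact h2.trans Finset.card_image_le
  · intro u hu
    apply h
    intro y hy
    unfold orc
    by_cases hyN : idx y < N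
    · rw [dif_pos hyN, dif_pos hyN]
      exact hu _ (Finset.mem_filter.2 ⟨Finset.mem_univ _, y, hy, rfl⟩)
    · rw [dif_neg hyN, dif_neg hyN]

theorem tst_inj {a b n : ℕ} {x y : List Bool} (hx : x.length = n) (hy : y.length = n)
    (h : tst2 a b x = tst2 a b y) : x = y := by
  unfold tst2 at h
  rw [hx, hy] at h
  exact (List.cons.inj (List.append_cancel_left h)).2

/-- the number of the test string of an input -/
def pos (a b : ℕ) {n : ℕ} (x : Fin n → Bool) : ℕ := idx (tst2 a b (List.ofFn x))

theorem pos_inj {a b n : ℕ} {x y : Fin n → Bool} (h : pos a b x = pos a b y) : x = y := by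
  unfold pos at h
  have h1 : tst2 a b (List.ofFn x) = tst2 a b (List.ofFn y) := by
    rw [← str_idx (tst2 a b (List.ofFn x)), h, str_idx]
  have h2 := tst_inj (n := n) (List.length_ofFn) (List.length_ofFn) h1
  exact List.ofFn_injective h2

open Classical in
/-- the assignments for which the circuit is right -/
noncomputable def SC (a b n N : ℕ) (C : Circuit) : Finset (Fin N → Bool) :=
  Finset.univ.filter fun v => ∀ x : List Bool, x.length = n →
    (orc N v (tst2 a b x) = true ↔ C.eval (orc N v) x = true)

open Classical in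
/-- overwrite the bits at the test strings -/
noncomputable def ovr (a b n N : ℕ) (p : (Fin N → Bool) × ((Fin n → Bool) → Bool)) :
    Fin N → Bool :=
  fun i => if h : ∃ x : Fin n → Bool, pos a b x = i.val then p.2 h.choose else p.1 i

theorem ovr_pos {a b n N : ℕ} (p : (Fin N → Bool) × ((Fin n → Bool) → Bool)) (x : Fin n → Bool)
    (i : Fin N) (hi : pos a b x = i.val) : ovr a b n N p i = p.2 x := by
  have h : ∃ x : Fin n → Bool, pos a b x = i.val := ⟨x, hi⟩
  unfold ovr
  rw [dif_pos h]
  have h1 : h.choose = x := pos_inj (a := a) (b := b) (h.choose_spec.trans hi.symm)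
  rw [h1]

theorem ovr_not {a b n N : ℕ} (p : (Fin N → Bool) × ((Fin n → Bool) → Bool))
    (i : Fin N) (hi : ¬ ∃ x : Fin n → Bool, pos a b x = i.val) : ovr a b n N p i = p.1 i := by
  unfold ovr
  rw [dif_neg hi]

theorem card_SC {a b n k N : ℕ} (hk : ∀ x : List Bool, x.length = n → k ≤ (tst2 a b x).length)
    (hN : ∀ x : List Bool, x.length = n → idx (tst2 a b x) < N) {C : Circuit} (hC : C.size ≤ k) :
    (SC a b n N C).card * 2 ^ 2 ^ n ≤ 2 ^ N := by
  classical
  have h1 : ((SC a b n N C) ×ˢ (Finset.univ : Finset ((Fin n → Bool) → Bool))).card ≤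
      (Finset.univ : Finset (Fin N → Bool)).card := by
    apply Finset.card_le_card_of_injOn (ovr a b n N)
    · intro p _
      exact Finset.mem_coe.2 (Finset.mem_univ _)
    · rintro ⟨c, v⟩ ha ⟨c', v'⟩ ha' heq
      rw [Finset.mem_coe, Finset.mem_product] at ha ha'
      have ha1 : ∀ x : List Bool, x.length = n →
          (orc N c (tst2 a b x) = true ↔ C.eval (orc N c) x = true) :=
        (Finset.mem_filter.1 ha.1).2
      have ha2 : ∀ x : List Bool, x.length = n →
          (orc N c' (tst2 a b x) = true ↔ C.eval (orc N c') x = true) :=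
        (Finset.mem_filter.1 ha'.1).2
      have hv : v = v' := by
        funext x
        have hx : pos a b x < N := hN _ List.length_ofFn
        have h2 := congrFun heq ⟨pos a b x, hx⟩
        rw [ovr_pos (c, v) x ⟨pos a b x, hx⟩ rfl, ovr_pos (c', v') x ⟨pos a b x, hx⟩ rfl] at h2
        exact h2
      have hoff : ∀ i : Fin N, (¬ ∃ x : Fin n → Bool, pos a b x = i.val) → c i = c' i := by
        intro i hi
        have h2 := congrFun heq i
        rw [ovr_not (c, v) i hi, ovr_not (c', v') i hi] at h2
        exact h2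
      have horc : ∀ y : List Bool, y.length < C.size → orc N c y = orc N c' y := by
        intro y hy
        unfold orc
        by_cases hyN : idx y < N
        · rw [dif_pos hyN, dif_pos hyN]
          apply hoff
          rintro ⟨x, hx⟩
          have h3 : tst2 a b (List.ofFn x) = y := by
            rw [← str_idx (tst2 a b (List.ofFn x)), ← str_idx y]
            exact congrArg str hx
          have h4 := hk (List.ofFn x) List.length_ofFn
          rw [h3] at h4
          omega
        · rw [dif_neg hyN, dif_neg hyN]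
      have haa : c = c' := by
        funext i
        by_cases hi : ∃ x : Fin n → Bool, pos a b x = i.val
        · obtain ⟨x, hx⟩ := hi
          have hx' : idx (tst2 a b (List.ofFn x)) < N := hN _ List.length_ofFn
          have e1 : ∀ d : Fin N → Bool, orc N d (tst2 a b (List.ofFn x)) = d i := by
            intro d
            unfold orc
            rw [dif_pos hx']
            congr 1
            exact Fin.ext hx
          have h5 := ha1 (List.ofFn x) List.length_ofFn
          have h6 := ha2 (List.ofFn x) List.length_ofFn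
          rw [e1] at h5 h6
          rw [eval_local C (orc N c) (orc N c') horc] at h5
          rw [Bool.eq_iff_iff, h5, h6]
        · exact hoff i hi
      rw [hv, haa]
  rw [Finset.card_product, Finset.card_univ, Finset.card_univ, Fintype.card_fun,
    Fintype.card_fun, Fintype.card_fun, Fintype.card_fin, Fintype.card_bool,
    Fintype.card_fin] at h1
  exact h1

open Classical in
/-- the positions of the test strings -/
noncomputable def TT (a b n N : ℕ) : Finset (Fin N) :=
  Finset.univ.filter fun i => ∃ x : Fin n → Bool, pos a b x = i.val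

theorem card_TT (a b n N : ℕ) : (TT a b n N).card ≤ 2 ^ n := by
  classical
  have h1 : (TT a b n N).map Fin.valEmbedding ⊆
      (Finset.univ : Finset (Fin n → Bool)).image (fun x => pos a b x) := by
    intro j hj
    rw [Finset.mem_map] at hj
    obtain ⟨i, hi, rfl⟩ := hj
    obtain ⟨x, hx⟩ := (Finset.mem_filter.1 hi).2
    rw [Finset.mem_image]
    exact ⟨x, Finset.mem_univ _, hx⟩
  have h2 := Finset.card_le_card h1
  rw [Finset.card_map] at h2
  refine h2.trans (Finset.card_image_le.trans ?_)
  rw [Finset.card_univ, Fintype.card_fun, Fintype.card_bool, Fintype.card_fin]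

open Classical in
/-- one circuit -/
theorem one_C {a b n k N : ℕ} (s : ℕ) (hk : ∀ x : List Bool, x.length = n →
      k ≤ (tst2 a b x).length)
    (hN : ∀ x : List Bool, x.length = n → idx (tst2 a b x) < N) {C : Circuit} (hC : C.size ≤ k) :
    ((Finset.univ : Finset (Fin N → Bool)).filter (fun v =>
      ∃ v' : Fin N → Bool, (df v v').card ≤ s ∧ v' ∈ SC a b n N C)).card * 2 ^ 2 ^ n ≤
      (2 ^ n * (k + 1) + 1) ^ s * 2 ^ N := by
  choose A hA hgA using fun (v : Fin N → Bool) (x : Fin n → Bool) =>
    pos_cert C N v (List.ofFn x)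
  let Q : (Fin N → Bool) → Finset (Fin N) := fun v =>
    TT a b n N ∪ (Finset.univ : Finset (Fin n → Bool)).biUnion fun x => A v x
  have hQ : ∀ v, (Q v).card ≤ 2 ^ n * (k + 1) := by
    intro v
    have h1 : ((Finset.univ : Finset (Fin n → Bool)).biUnion fun x => A v x).card ≤
        ∑ x : Fin n → Bool, (A v x).card := Finset.card_biUnion_le
    have h2 : ∑ x : Fin n → Bool, (A v x).card ≤ ∑ x : Fin n → Bool, k :=
      Finset.sum_le_sum fun x _ => (hA v x).trans hC
    rw [Finset.sum_const, Finset.card_univ, smul_eq_mul, Fintype.card_fun, Fintype.card_bool,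
      Fintype.card_fin] at h2
    have h3 := card_TT a b n N
    have h4 := Finset.card_union_le (TT a b n N)
      ((Finset.univ : Finset (Fin n → Bool)).biUnion fun x => A v x)
    have h5 : 2 ^ n * (k + 1) = 2 ^ n * k + 2 ^ n := by ring
    show (TT a b n N ∪ (Finset.univ : Finset (Fin n → Bool)).biUnion fun x => A v x).card ≤ _
    omega
  have hsub : ((Finset.univ : Finset (Fin N → Bool)).filter (fun v =>
      ∃ v' : Fin N → Bool, (df v v').card ≤ s ∧ v' ∈ SC a b n N C)) ⊆
      (SC a b n N C).biUnion (fun u =>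
        ((Q u).powerset.filter (fun D => D.card ≤ s)).image (fun D => ch u D)) := by
    intro v hv
    obtain ⟨_, w, hb, hr⟩ := Finset.mem_filter.1 hv
    have hr' : ∀ x : List Bool, x.length = n →
        (orc N w (tst2 a b x) = true ↔ C.eval (orc N w) x = true) := (Finset.mem_filter.1 hr).2
    -- a minimal set of changes
    obtain ⟨D, hD, hmin⟩ : ∃ D : Finset (Fin N), (D ⊆ df v w ∧ df v w ∩ TT a b n N ⊆ D ∧
        ∀ x : Fin n → Bool, C.eval (orc N (ch v D)) (List.ofFn x) =
          C.eval (orc N w) (List.ofFn x)) ∧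
        ∀ i ∈ D, ¬ (df v w ∩ TT a b n N ⊆ D.erase i ∧
          ∀ x : Fin n → Bool, C.eval (orc N (ch v (D.erase i))) (List.ofFn x) =
            C.eval (orc N w) (List.ofFn x)) := by
      have hex : ∃ m, ∃ D : Finset (Fin N), (D ⊆ df v w ∧ df v w ∩ TT a b n N ⊆ D ∧
          ∀ x : Fin n → Bool, C.eval (orc N (ch v D)) (List.ofFn x) =
            C.eval (orc N w) (List.ofFn x)) ∧ D.card = m := by
        refine ⟨_, df v w, ⟨subset_rfl, Finset.inter_subset_left, fun x => ?_⟩, rfl⟩
        have h1 : ch v (df v w) = w := by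
          have h2 : df v w = df w v := by
            unfold df
            ext i
            simp only [Finset.mem_filter, ne_comm]
          rw [h2, ch_df]
        rw [h1]
      obtain ⟨D, hD, hn⟩ := Nat.find_spec hex
      refine ⟨D, hD, fun i hi h => ?_⟩
      have h1 : D.card - 1 < Nat.find hex := by
        rw [← hn]
        have := Finset.card_pos.2 ⟨i, hi⟩
        omega
      apply Nat.find_min hex h1
      exact ⟨D.erase i, ⟨(Finset.erase_subset _ _).trans hD.1, h⟩, Finset.card_erase_of_mem hi⟩
    have hDQ : D ⊆ Q (ch v D) := by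
      intro i hi
      by_contra hiQ
      have hi1 : i ∉ TT a b n N := fun h => hiQ (Finset.mem_union_left _ h)
      apply hmin i hi
      refine ⟨?_, ?_⟩
      · intro j hj
        rw [Finset.mem_erase]
        refine ⟨?_, hD.2.1 hj⟩
        rintro rfl
        exact hi1 (Finset.mem_inter.1 hj).2
      intro x
      rw [← hD.2.2 x]
      apply hgA (ch v D) x
      intro i' hi'
      have hne : i' ≠ i := by
        rintro rfl
        apply hiQ
        apply Finset.mem_union_right
        rw [Finset.mem_biUnion]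
        exact ⟨x, Finset.mem_univ _, hi'⟩
      unfold ch
      have h1 : i' ∈ D.erase i ↔ i' ∈ D := by
        rw [Finset.mem_erase]
        exact ⟨fun h => h.2, fun h => ⟨hne, h⟩⟩
      simp only [h1]
    rw [Finset.mem_biUnion]
    refine ⟨ch v D, ?_, ?_⟩
    · refine Finset.mem_filter.2 ⟨Finset.mem_univ _, ?_⟩
      intro x hx
      subst hx
      have hx : x = List.ofFn (fun i : Fin x.length => x.get i) := (List.ofFn_get x).symm
      have e1 := hD.2.2 (fun i : Fin x.length => x.get i)
      rw [← hx] at e1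
      have hxN : idx (tst2 a b x) < N := hN x rfl
      have e2 : ∀ d : Fin N → Bool, orc N d (tst2 a b x) = d ⟨idx (tst2 a b x), hxN⟩ := by
        intro d
        unfold orc
        rw [dif_pos hxN]
      have hmT : (⟨idx (tst2 a b x), hxN⟩ : Fin N) ∈ TT a b x.length N := by
        refine Finset.mem_filter.2 ⟨Finset.mem_univ _, (fun i : Fin x.length => x.get i), ?_⟩
        unfold pos
        rw [← hx]
      have e3 : ch v D ⟨idx (tst2 a b x), hxN⟩ = w ⟨idx (tst2 a b x), hxN⟩ := by
        unfold ch
        by_cases h : v ⟨idx (tst2 a b x), hxN⟩ = w ⟨idx (tst2 a b x), hxN⟩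
        · have h3 : (⟨idx (tst2 a b x), hxN⟩ : Fin N) ∉ D := fun h' => mem_df.1 (hD.1 h') h
          rw [if_neg h3, h]
        · have h3 : (⟨idx (tst2 a b x), hxN⟩ : Fin N) ∈ D :=
            hD.2.1 (Finset.mem_inter.2 ⟨mem_df.2 h, hmT⟩)
          rw [if_pos h3]
          revert h
          cases v ⟨idx (tst2 a b x), hxN⟩ <;> cases w ⟨idx (tst2 a b x), hxN⟩ <;> simp
      have e4 := hr' x rfl
      rw [e2] at e4 ⊢
      rw [e3, e1]
      exact e4
    · rw [Finset.mem_image]
      refine ⟨D, ?_, ch_ch v D⟩
      rw [Finset.mem_filter, Finset.mem_powerset]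
      exact ⟨hDQ, (Finset.card_le_card hD.1).trans hb⟩
  have hcard : ((Finset.univ : Finset (Fin N → Bool)).filter (fun v =>
      ∃ v' : Fin N → Bool, (df v v').card ≤ s ∧ v' ∈ SC a b n N C)).card ≤
      (SC a b n N C).card * (2 ^ n * (k + 1) + 1) ^ s := by
    refine (Finset.card_le_card hsub).trans ?_
    refine Finset.card_biUnion_le_card_mul _ _ _ fun u _ => ?_
    refine Finset.card_image_le.trans ((card_small' (Q u) s).trans ?_)
    exact Nat.pow_le_pow_left (Nat.add_le_add_right (hQ u) 1) s
  calc _ ≤ ((SC a b n N C).card * (2 ^ n * (k + 1) + 1) ^ s) * 2 ^ 2 ^ n :=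
        Nat.mul_le_mul_right _ hcard
    _ = (2 ^ n * (k + 1) + 1) ^ s * ((SC a b n N C).card * 2 ^ 2 ^ n) := by ring
    _ ≤ (2 ^ n * (k + 1) + 1) ^ s * 2 ^ N := Nat.mul_le_mul_left _ (card_SC hk hN hC)

theorem cnt2 : Pool.Agent.W912.EC.S_CNT2 := by
  classical
  intro a b n k N s hk hN
  obtain ⟨F, hF, hFC⟩ := exists_circuits n k
  have hsub : ((Finset.univ : Finset (Fin N → Bool)).filter (fun v =>
      ∃ v' : Fin N → Bool, (df v v').card ≤ s ∧ EvC2 a b n k (orc N v'))) ⊆
      (F.filter fun C => C.size ≤ k).biUnion (fun C =>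
        (Finset.univ : Finset (Fin N → Bool)).filter (fun v =>
          ∃ v' : Fin N → Bool, (df v v').card ≤ s ∧ v' ∈ SC a b n N C)) := by
    intro v hv
    obtain ⟨v', hd, C, hC, hCa⟩ := (Finset.mem_filter.1 hv).2
    obtain ⟨C', hC', hs, he⟩ := hFC C hC
    rw [Finset.mem_biUnion]
    refine ⟨C', Finset.mem_filter.2 ⟨hC', hs⟩, ?_⟩
    refine Finset.mem_filter.2 ⟨Finset.mem_univ _, v', hd, ?_⟩
    refine Finset.mem_filter.2 ⟨Finset.mem_univ _, fun x hx => ?_⟩
    rw [he (orc N v') x hx]
    exact hCa x hx
  calc _ ≤ (∑ C ∈ F.filter fun C => C.size ≤ k,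
        ((Finset.univ : Finset (Fin N → Bool)).filter (fun v =>
          ∃ v' : Fin N → Bool, (df v v').card ≤ s ∧ v' ∈ SC a b n N C)).card) * 2 ^ 2 ^ n :=
        Nat.mul_le_mul_right _ ((Finset.card_le_card hsub).trans Finset.card_biUnion_le)
    _ = ∑ C ∈ F.filter fun C => C.size ≤ k,
        ((Finset.univ : Finset (Fin N → Bool)).filter (fun v =>
          ∃ v' : Fin N → Bool, (df v v').card ≤ s ∧ v' ∈ SC a b n N C)).card * 2 ^ 2 ^ n := by
        rw [Finset.sum_mul]
    _ ≤ ∑ C ∈ F.filter fun C => C.size ≤ k, (2 ^ n * (k + 1) + 1) ^ s * 2 ^ N :=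
        Finset.sum_le_sum fun C hC => one_C s hk hN (Finset.mem_filter.1 hC).2
    _ = (F.filter fun C => C.size ≤ k).card * ((2 ^ n * (k + 1) + 1) ^ s * 2 ^ N) := by
        rw [Finset.sum_const, smul_eq_mul]
    _ ≤ nC n k * ((2 ^ n * (k + 1) + 1) ^ s * 2 ^ N) :=
        Nat.mul_le_mul_right _ ((Finset.card_le_card (Finset.filter_subset _ _)).trans hF)
    _ = (2 ^ n * (k + 1) + 1) ^ s * nC n k * 2 ^ N := by ring

end Pool.Agent.W22.EC
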